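import Pool.Agent.Helper64.RN.Goals2

/-!
# Project RN, packet UP: a limit field
-/

set_option autoImplicit false

universe u

namespace Pool.Agent.Helper78.RN.UP

open Pool.Agent.Helper64.RN

section

variable (K : Type u) [Field K]

/-- the ideal of the sequences which are zero from some place on -/
def J : Ideal (ℕ → K) where
  carrier := {f | ∃ N, ∀ M ≥ N, f M = 0}
  add_mem' := by
    rintro f g ⟨N, hN⟩ ⟨N', hN'⟩
    refine ⟨max N N', fun M hM => ?_⟩
    rw [Pi.add_apply, hN M (le_trans (le_max_left _ _) hM), hN' M (le_trans (le_max_right _ _) hM),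
      add_zero]
  zero_mem' := ⟨0, fun _ _ => rfl⟩
  smul_mem' := by
    rintro c f ⟨N, hN⟩
    refine ⟨N, fun M hM => ?_⟩
    rw [smul_eq_mul, Pi.mul_apply, hN M hM, mul_zero]

theorem J_ne_top : J K ≠ ⊤ := by
  intro h
  have h1 : (1 : ℕ → K) ∈ J K := by rw [h]; trivial
  obtain ⟨N, hN⟩ := h1
  exact one_ne_zero (hN N le_rfl)

end

theorem t : S_UP.{u} := by
  intro K _ p E _ G hyp
  obtain ⟨m, hm, hJm⟩ := Ideal.exists_le_maximal (J K) (J_ne_top K)
  letI : Field ((ℕ → K) ⧸ m) := Ideal.Quotient.field m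
  choose w hw1 hw2 using hyp
  set V : ℕ → Fin p → (ℕ → K) := fun n i M => if h : n < M then w M ⟨n, h⟩ i else 0 with hV
  set φ : (ℕ → K) →ₐ[K] AlgebraicClosure ((ℕ → K) ⧸ m) :=
    (IsScalarTower.toAlgHom K ((ℕ → K) ⧸ m) (AlgebraicClosure ((ℕ → K) ⧸ m))).comp
      (Ideal.Quotient.mkₐ K m) with hφ
  have hφv : ∀ f, φ f = algebraMap ((ℕ → K) ⧸ m) (AlgebraicClosure ((ℕ → K) ⧸ m))
      (Ideal.Quotient.mk m f) := fun f => rfl
  have hB : ∀ f : ℕ → K, (∃ N, ∀ M ≥ N, f M = 0) → φ f = 0 := by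
    intro f hf
    have : Ideal.Quotient.mk m f = 0 := Ideal.Quotient.eq_zero_iff_mem.2 (hJm hf)
    rw [hφv, this, map_zero]
  have hA : ∀ f : ℕ → K, (∃ N, ∀ M ≥ N, f M ≠ 0) → φ f ≠ 0 := by
    rintro f ⟨N, hN⟩ h0
    have h1 : φ (f * f⁻¹ - 1) = 0 := by
      apply hB
      refine ⟨N, fun M hM => ?_⟩
      rw [Pi.sub_apply, Pi.mul_apply, Pi.inv_apply, Pi.one_apply, mul_inv_cancel₀ (hN M hM), sub_self]
    rw [map_sub, map_mul, h0, zero_mul, map_one, zero_sub, neg_eq_zero] at h1
    exact one_ne_zero h1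
  refine ⟨AlgebraicClosure ((ℕ → K) ⧸ m), inferInstance, inferInstance, inferInstance,
    fun n i => φ (V n i), ?_, ?_⟩
  · intro a ha
    have h1 : Matrix.det (fun i j => φ (V (a j) i)) =
        φ (Matrix.det (fun i j => V (a j) i : Matrix (Fin p) (Fin p) (ℕ → K))) := by
      rw [AlgHom.map_det]
      rfl
    rw [h1]
    apply hA
    refine ⟨(Finset.univ.sup a) + 1, fun M hM => ?_⟩
    have hlt : ∀ j, a j < M := fun j => by
      have := Finset.le_sup (f := a) (Finset.mem_univ j)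
      omega
    have h2 : (Matrix.det (fun i j => V (a j) i : Matrix (Fin p) (Fin p) (ℕ → K))) M =
        Matrix.det (fun i j => w M ⟨a j, hlt j⟩ i) := by
      have h3 := RingHom.map_det (Pi.evalRingHom (fun _ : ℕ => K) M)
        (fun i j => V (a j) i : Matrix (Fin p) (Fin p) (ℕ → K))
      have h4 : (Pi.evalRingHom (fun _ : ℕ => K) M)
          (Matrix.det (fun i j => V (a j) i : Matrix (Fin p) (Fin p) (ℕ → K))) =
          (Matrix.det (fun i j => V (a j) i : Matrix (Fin p) (Fin p) (ℕ → K))) M := rfl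
      rw [← h4, h3]
      congr 1
      funext i j
      change V (a j) i M = _
      simp only [hV]
      rw [dif_pos (hlt j)]
    rw [h2]
    exact hw1 M (fun j => ⟨a j, hlt j⟩) (fun x y hxy => ha (by simpa using hxy))
  · intro ι hι
    have h1 : MvPolynomial.aeval (fun q : E × Fin p => φ (V (ι q.1) q.2)) G =
        φ (MvPolynomial.aeval (fun q : E × Fin p => V (ι q.1) q.2) G) := by
      have := MvPolynomial.comp_aeval (R := K) (fun q : E × Fin p => V (ι q.1) q.2) φ
      exact (DFunLike.congr_fun this G).symm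
    rw [h1]
    apply hB
    refine ⟨(Finset.univ.sup ι) + 1, fun M hM => ?_⟩
    have hlt : ∀ e, ι e < M := fun e => by
      have := Finset.le_sup (f := ι) (Finset.mem_univ e)
      omega
    have h2 := MvPolynomial.comp_aeval (R := K) (fun q : E × Fin p => V (ι q.1) q.2)
      (Pi.evalAlgHom K (fun _ : ℕ => K) M)
    have h3 := DFunLike.congr_fun h2 G
    have h4 : ((Pi.evalAlgHom K (fun _ : ℕ => K) M).comp
        (MvPolynomial.aeval (fun q : E × Fin p => V (ι q.1) q.2))) G =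
        (MvPolynomial.aeval (fun q : E × Fin p => V (ι q.1) q.2) G) M := rfl
    rw [← h4, h3]
    have h5 : (fun q : E × Fin p => (Pi.evalAlgHom K (fun _ : ℕ => K) M) (V (ι q.1) q.2)) =
        fun q : E × Fin p => w M ⟨ι q.1, hlt q.1⟩ q.2 := by
      funext q
      change V (ι q.1) q.2 M = _
      simp only [hV]
      rw [dif_pos (hlt q.1)]
    rw [h5]
    have h6 : MvPolynomial.aeval (fun q : E × Fin p => w M ⟨ι q.1, hlt q.1⟩ q.2) G =
        MvPolynomial.eval (fun q : E × Fin p => w M ⟨ι q.1, hlt q.1⟩ q.2) G := by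
      rw [← MvPolynomial.coe_aeval_eq_eval]
      rfl
    rw [h6]
    exact hw2 M (fun e => ⟨ι e, hlt e⟩) (fun x y hxy => hι (by simpa using hxy))

end Pool.Agent.Helper78.RN.UP
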